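import Pool.Agent.BEF.Stmts

/-!
# Squad BEF (MP_be01ff_an), row GBD: bounds of graded families
-/

set_option autoImplicit false

noncomputable section

namespace Pool.Agent.BEF.H5

open Pool.Agent.BEF

theorem eval_bd {κ : Type} [Fintype κ] {d : ℕ} (f : MvPolynomial κ ℝ) (hf : f.IsHomogeneous d)
    (z : κ → ℝ) :
    |MvPolynomial.eval z f| ≤ (∑ s ∈ f.support, |MvPolynomial.coeff s f|) * ‖z‖ ^ d := by
  rw [MvPolynomial.eval_eq', Finset.sum_mul]
  refine (Finset.abs_sum_le_sum_abs _ _).trans (Finset.sum_le_sum fun s hs => ?_)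
  rw [abs_mul, Finset.abs_prod]
  refine mul_le_mul_of_nonneg_left ?_ (abs_nonneg _)
  have hs1 : MvPolynomial.coeff s f ≠ 0 := MvPolynomial.mem_support_iff.mp hs
  have h1 : ∑ i, s i = d := by
    have h2 := hf hs1
    have h3 : Finsupp.degree s = d := by
      rw [Finsupp.degree_eq_weight_one]
      exact h2
    rw [Finsupp.degree_eq_sum] at h3
    exact h3
  calc ∏ i, |z i ^ s i| ≤ ∏ i, ‖z‖ ^ s i := by
        refine Finset.prod_le_prod (fun i _ => abs_nonneg _) fun i _ => ?_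
        rw [abs_pow]
        exact pow_le_pow_left₀ (abs_nonneg _) (norm_le_pi_norm z i) _
    _ = ‖z‖ ^ (∑ i, s i) := Finset.prod_pow_eq_pow_sum _ _ _
    _ = ‖z‖ ^ d := by rw [h1]

theorem hg_bd {κ : Type} [Fintype κ] {M : Type} [NormedAddCommGroup M] [NormedSpace ℝ M]
    (d : ℕ) (P : ℝ → (κ → ℝ) → M) (hP : P ∈ HG κ M d) :
    ∃ C : ℝ, 0 ≤ C ∧ ∀ ψ z, ‖P ψ z‖ ≤ C * ‖z‖ ^ d := by
  unfold HG at hP
  induction hP using Submodule.span_induction with
  | zero => exact ⟨0, le_refl _, fun ψ z => by simp⟩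
  | add x y _ _ hx hy =>
    obtain ⟨C, hC, h⟩ := hx
    obtain ⟨C', hC', h'⟩ := hy
    refine ⟨C + C', add_nonneg hC hC', fun ψ z => ?_⟩
    rw [add_mul]
    exact (norm_add_le _ _).trans (add_le_add (h ψ z) (h' ψ z))
  | smul a x _ hx =>
    obtain ⟨C, hC, h⟩ := hx
    refine ⟨|a| * C, mul_nonneg (abs_nonneg _) hC, fun ψ z => ?_⟩
    have h1 : ‖(a • x) ψ z‖ = |a| * ‖x ψ z‖ := by
      rw [Pi.smul_apply, Pi.smul_apply, norm_smul, Real.norm_eq_abs]
    rw [h1, mul_assoc]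
    exact mul_le_mul_of_nonneg_left (h ψ z) (abs_nonneg _)
  | mem x hx =>
    obtain ⟨f, j, i, m, hf, hji, hx⟩ := hx
    have hc0 : 0 ≤ ∑ s ∈ f.support, |MvPolynomial.coeff s f| :=
      Finset.sum_nonneg fun s _ => abs_nonneg _
    have key : ∀ (z : κ → ℝ) (c : ℝ), |c| ≤ 1 → ‖(MvPolynomial.eval z f * c) • m‖ ≤
        (∑ s ∈ f.support, |MvPolynomial.coeff s f|) * ‖m‖ * ‖z‖ ^ d := by
      intro z c hc
      rw [norm_smul, Real.norm_eq_abs, abs_mul]
      have h1 := eval_bd f hf z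
      have h2 : |MvPolynomial.eval z f| * |c| ≤ |MvPolynomial.eval z f| :=
        mul_le_of_le_one_right (abs_nonneg _) hc
      calc |MvPolynomial.eval z f| * |c| * ‖m‖
          ≤ ((∑ s ∈ f.support, |MvPolynomial.coeff s f|) * ‖z‖ ^ d) * ‖m‖ :=
            mul_le_mul_of_nonneg_right (h2.trans h1) (norm_nonneg _)
        _ = _ := by ring
    refine ⟨(∑ s ∈ f.support, |MvPolynomial.coeff s f|) * ‖m‖,
      mul_nonneg hc0 (norm_nonneg _), fun ψ z => ?_⟩
    rcases hx with rfl | rfl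
    · exact key z _ (Real.abs_cos_le_one _)
    · exact key z _ (Real.abs_sin_le_one _)

theorem gbd : GbdStmt := by
  intro κ _ M _ _ d P hP
  unfold GE at hP
  refine Submodule.iSup_induction _
    (motive := fun x => ∃ C : ℝ, 0 ≤ C ∧ ∀ ψ z, ‖z‖ ≤ 1 → ‖x ψ z‖ ≤ C * ‖z‖ ^ d) hP ?_ ?_ ?_
  · intro k x hx
    obtain ⟨C, hC, h⟩ := hg_bd (d + 2 * k) x hx
    refine ⟨C, hC, fun ψ z hz => (h ψ z).trans (mul_le_mul_of_nonneg_left ?_ hC)⟩
    exact pow_le_pow_of_le_one (norm_nonneg _) hz (by omega)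
  · exact ⟨0, le_refl _, fun ψ z _ => by simp⟩
  · intro x y hx hy
    obtain ⟨C, hC, h⟩ := hx
    obtain ⟨C', hC', h'⟩ := hy
    refine ⟨C + C', add_nonneg hC hC', fun ψ z hz => ?_⟩
    rw [add_mul]
    exact (norm_add_le _ _).trans (add_le_add (h ψ z hz) (h' ψ z hz))

end Pool.Agent.BEF.H5
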