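import Pool.Agent.BEF.Stmts

/-!
# Squad BEF (MP_be01ff_an), row GPR: products of graded families
-/

set_option autoImplicit false

noncomputable section

namespace Pool.Agent.BEF.H5

open Pool.Agent.BEF

section

variable {κ : Type} {M : Type} [NormedAddCommGroup M] [NormedSpace ℝ M]

theorem mem_cosZ {D : ℕ} (f : MvPolynomial κ ℝ) (hf : f.IsHomogeneous D) (n : ℤ) (i : ℕ)
    (h : n.natAbs + 2 * i = D) (m : M) :
    (fun (ψ : ℝ) (z : κ → ℝ) => (MvPolynomial.eval z f * Real.cos ((n : ℝ) * ψ)) • m) ∈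
      HG κ M D := by
  have h1 : ∀ ψ : ℝ, Real.cos ((n : ℝ) * ψ) = Real.cos ((n.natAbs : ℝ) * ψ) := by
    intro ψ
    rw [Nat.cast_natAbs, Int.cast_abs]
    rcases abs_choice (n : ℝ) with h2 | h2
    · rw [h2]
    · rw [h2, neg_mul, Real.cos_neg]
  simp only [h1]
  exact Submodule.subset_span ⟨f, n.natAbs, i, m, hf, h, Or.inl rfl⟩

theorem mem_sinZ {D : ℕ} (f : MvPolynomial κ ℝ) (hf : f.IsHomogeneous D) (n : ℤ) (i : ℕ)
    (h : n.natAbs + 2 * i = D) (m : M) :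
    (fun (ψ : ℝ) (z : κ → ℝ) => (MvPolynomial.eval z f * Real.sin ((n : ℝ) * ψ)) • m) ∈
      HG κ M D := by
  have h0 : (fun (ψ : ℝ) (z : κ → ℝ) =>
      (MvPolynomial.eval z f * Real.sin ((n.natAbs : ℝ) * ψ)) • m) ∈ HG κ M D :=
    Submodule.subset_span ⟨f, n.natAbs, i, m, hf, h, Or.inr rfl⟩
  rcases abs_choice (n : ℝ) with h2 | h2
  · have h1 : ∀ ψ : ℝ, Real.sin ((n : ℝ) * ψ) = Real.sin ((n.natAbs : ℝ) * ψ) := by
      intro ψ
      rw [Nat.cast_natAbs, Int.cast_abs, h2]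
    simp only [h1]
    exact h0
  · have h1 : (fun (ψ : ℝ) (z : κ → ℝ) => (MvPolynomial.eval z f * Real.sin ((n : ℝ) * ψ)) • m) =
        -(fun (ψ : ℝ) (z : κ → ℝ) =>
          (MvPolynomial.eval z f * Real.sin ((n.natAbs : ℝ) * ψ)) • m) := by
      funext ψ z
      rw [Pi.neg_apply, Pi.neg_apply, Nat.cast_natAbs, Int.cast_abs, h2, neg_mul, Real.sin_neg,
        mul_neg, neg_smul, neg_neg]
    rw [h1]
    exact neg_mem h0

theorem mem_mul {D d d' : ℕ} (hD : d + d' = D) (f f' : MvPolynomial κ ℝ)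
    (hf : f.IsHomogeneous d) (hf' : f'.IsHomogeneous d') (j i j' i' : ℕ)
    (h : j + 2 * i = d) (h' : j' + 2 * i' = d') (m : M) :
    (fun (ψ : ℝ) (z : κ → ℝ) => ((MvPolynomial.eval z f * Real.cos ((j : ℝ) * ψ)) *
      (MvPolynomial.eval z f' * Real.cos ((j' : ℝ) * ψ))) • m) ∈ HG κ M D ∧
    (fun (ψ : ℝ) (z : κ → ℝ) => ((MvPolynomial.eval z f * Real.cos ((j : ℝ) * ψ)) *
      (MvPolynomial.eval z f' * Real.sin ((j' : ℝ) * ψ))) • m) ∈ HG κ M D ∧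
    (fun (ψ : ℝ) (z : κ → ℝ) => ((MvPolynomial.eval z f * Real.sin ((j : ℝ) * ψ)) *
      (MvPolynomial.eval z f' * Real.cos ((j' : ℝ) * ψ))) • m) ∈ HG κ M D ∧
    (fun (ψ : ℝ) (z : κ → ℝ) => ((MvPolynomial.eval z f * Real.sin ((j : ℝ) * ψ)) *
      (MvPolynomial.eval z f' * Real.sin ((j' : ℝ) * ψ))) • m) ∈ HG κ M D := by
  have hff : (f * f').IsHomogeneous D := hD ▸ hf.mul hf'
  have hp : ((j : ℤ) + (j' : ℤ)).natAbs + 2 * (i + i') = D := by omega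
  have hm : ((j : ℤ) - (j' : ℤ)).natAbs + 2 * (i + i' + min j j') = D := by omega
  have cp := mem_cosZ (f * f') hff _ _ hp ((1 / 2 : ℝ) • m)
  have sp := mem_sinZ (f * f') hff _ _ hp ((1 / 2 : ℝ) • m)
  have cm := mem_cosZ (f * f') hff _ _ hm ((1 / 2 : ℝ) • m)
  have sm := mem_sinZ (f * f') hff _ _ hm ((1 / 2 : ℝ) • m)
  have e1 : ∀ ψ : ℝ, (((j : ℤ) + (j' : ℤ) : ℤ) : ℝ) * ψ = (j : ℝ) * ψ + (j' : ℝ) * ψ := by
    intro ψ
    push_cast
    ring
  have e2 : ∀ ψ : ℝ, (((j : ℤ) - (j' : ℤ) : ℤ) : ℝ) * ψ = (j : ℝ) * ψ - (j' : ℝ) * ψ := by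
    intro ψ
    push_cast
    ring
  refine ⟨?_, ?_, ?_, ?_⟩
  · have e3 := add_mem cm cp
    refine (congrArg (fun x => x ∈ HG κ M D) ?_).mp e3
    funext ψ z
    simp only [Pi.add_apply, map_mul, e1, e2, smul_smul, ← add_smul]
    congr 1
    rw [Real.cos_add, Real.cos_sub]
    ring
  · have e3 := sub_mem sp sm
    refine (congrArg (fun x => x ∈ HG κ M D) ?_).mp e3
    funext ψ z
    simp only [Pi.sub_apply, map_mul, e1, e2, smul_smul, ← sub_smul]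
    congr 1
    rw [Real.sin_add, Real.sin_sub]
    ring
  · have e3 := add_mem sp sm
    refine (congrArg (fun x => x ∈ HG κ M D) ?_).mp e3
    funext ψ z
    simp only [Pi.add_apply, map_mul, e1, e2, smul_smul, ← add_smul]
    congr 1
    rw [Real.sin_add, Real.sin_sub]
    ring
  · have e3 := sub_mem cm cp
    refine (congrArg (fun x => x ∈ HG κ M D) ?_).mp e3
    funext ψ z
    simp only [Pi.sub_apply, map_mul, e1, e2, smul_smul, ← sub_smul]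
    congr 1
    rw [Real.cos_add, Real.cos_sub]
    ring

end

section

variable {κ : Type} {M₁ M₂ M₃ : Type} [NormedAddCommGroup M₁]
  [NormedSpace ℝ M₁] [NormedAddCommGroup M₂] [NormedSpace ℝ M₂] [NormedAddCommGroup M₃]
  [NormedSpace ℝ M₃] (β : M₁ →L[ℝ] M₂ →L[ℝ] M₃)

theorem bil_zero_left (P' : ℝ → (κ → ℝ) → M₂) (D : Submodule ℝ (ℝ → (κ → ℝ) → M₃)) :
    (fun ψ z => β ((0 : ℝ → (κ → ℝ) → M₁) ψ z) (P' ψ z)) ∈ D := by
  have h : (fun ψ z => β ((0 : ℝ → (κ → ℝ) → M₁) ψ z) (P' ψ z)) = 0 := by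
    funext ψ z
    simp
  rw [h]
  exact D.zero_mem

theorem bil_add_left (P Q : ℝ → (κ → ℝ) → M₁) (P' : ℝ → (κ → ℝ) → M₂)
    (D : Submodule ℝ (ℝ → (κ → ℝ) → M₃)) (h1 : (fun ψ z => β (P ψ z) (P' ψ z)) ∈ D)
    (h2 : (fun ψ z => β (Q ψ z) (P' ψ z)) ∈ D) :
    (fun ψ z => β ((P + Q) ψ z) (P' ψ z)) ∈ D := by
  have h : (fun ψ z => β ((P + Q) ψ z) (P' ψ z)) =
      (fun ψ z => β (P ψ z) (P' ψ z)) + (fun ψ z => β (Q ψ z) (P' ψ z)) := by
    funext ψ z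
    simp
  rw [h]
  exact D.add_mem h1 h2

theorem bil_smul_left (a : ℝ) (P : ℝ → (κ → ℝ) → M₁) (P' : ℝ → (κ → ℝ) → M₂)
    (D : Submodule ℝ (ℝ → (κ → ℝ) → M₃)) (h1 : (fun ψ z => β (P ψ z) (P' ψ z)) ∈ D) :
    (fun ψ z => β ((a • P) ψ z) (P' ψ z)) ∈ D := by
  have h : (fun ψ z => β ((a • P) ψ z) (P' ψ z)) = a • (fun ψ z => β (P ψ z) (P' ψ z)) := by
    funext ψ z
    simp
  rw [h]
  exact D.smul_mem a h1

theorem bil_zero_right (P : ℝ → (κ → ℝ) → M₁) (D : Submodule ℝ (ℝ → (κ → ℝ) → M₃)) :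
    (fun ψ z => β (P ψ z) ((0 : ℝ → (κ → ℝ) → M₂) ψ z)) ∈ D := by
  have h : (fun ψ z => β (P ψ z) ((0 : ℝ → (κ → ℝ) → M₂) ψ z)) = 0 := by
    funext ψ z
    simp
  rw [h]
  exact D.zero_mem

theorem bil_add_right (P : ℝ → (κ → ℝ) → M₁) (P' Q' : ℝ → (κ → ℝ) → M₂)
    (D : Submodule ℝ (ℝ → (κ → ℝ) → M₃)) (h1 : (fun ψ z => β (P ψ z) (P' ψ z)) ∈ D)
    (h2 : (fun ψ z => β (P ψ z) (Q' ψ z)) ∈ D) :
    (fun ψ z => β (P ψ z) ((P' + Q') ψ z)) ∈ D := by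
  have h : (fun ψ z => β (P ψ z) ((P' + Q') ψ z)) =
      (fun ψ z => β (P ψ z) (P' ψ z)) + (fun ψ z => β (P ψ z) (Q' ψ z)) := by
    funext ψ z
    simp
  rw [h]
  exact D.add_mem h1 h2

theorem bil_smul_right (a : ℝ) (P : ℝ → (κ → ℝ) → M₁) (P' : ℝ → (κ → ℝ) → M₂)
    (D : Submodule ℝ (ℝ → (κ → ℝ) → M₃)) (h1 : (fun ψ z => β (P ψ z) (P' ψ z)) ∈ D) :
    (fun ψ z => β (P ψ z) ((a • P') ψ z)) ∈ D := by
  have h : (fun ψ z => β (P ψ z) ((a • P') ψ z)) = a • (fun ψ z => β (P ψ z) (P' ψ z)) := by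
    funext ψ z
    simp
  rw [h]
  exact D.smul_mem a h1

theorem hg_mul (d d' : ℕ) (P : ℝ → (κ → ℝ) → M₁) (P' : ℝ → (κ → ℝ) → M₂)
    (hP : P ∈ HG κ M₁ d) (hP' : P' ∈ HG κ M₂ d') :
    (fun ψ z => β (P ψ z) (P' ψ z)) ∈ HG κ M₃ (d + d') := by
  unfold HG at hP
  induction hP using Submodule.span_induction with
  | zero => exact bil_zero_left β P' _
  | add x y _ _ hx hy => exact bil_add_left β x y P' _ hx hy
  | smul a x _ hx => exact bil_smul_left β a x P' _ hx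
  | mem x hx =>
    unfold HG at hP'
    induction hP' using Submodule.span_induction with
    | zero => exact bil_zero_right β x _
    | add y y' _ _ hy hy' => exact bil_add_right β x y y' _ hy hy'
    | smul a y _ hy => exact bil_smul_right β a x y _ hy
    | mem y hy =>
      obtain ⟨f, j, i, m, hf, hji, hx⟩ := hx
      obtain ⟨f', j', i', m', hf', hji', hy⟩ := hy
      have key := mem_mul rfl f f' hf hf' j i j' i' hji hji' (β m m')
      have hb : ∀ a b : ℝ, β (a • m) (b • m') = (a * b) • β m m' := by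
        intro a b
        rw [ContinuousLinearMap.map_smul₂, map_smul, smul_smul]
      rcases hx with rfl | rfl <;> rcases hy with rfl | rfl <;> simp only [hb]
      · exact key.1
      · exact key.2.1
      · exact key.2.2.1
      · exact key.2.2.2

theorem ge_mul (d d' : ℕ) (P : ℝ → (κ → ℝ) → M₁) (P' : ℝ → (κ → ℝ) → M₂)
    (hP : P ∈ GE κ M₁ d) (hP' : P' ∈ GE κ M₂ d') :
    (fun ψ z => β (P ψ z) (P' ψ z)) ∈ GE κ M₃ (d + d') := by
  unfold GE at hP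
  refine Submodule.iSup_induction _
    (motive := fun x => (fun ψ z => β (x ψ z) (P' ψ z)) ∈ GE κ M₃ (d + d')) hP ?_ ?_ ?_
  · intro k x hx
    unfold GE at hP'
    refine Submodule.iSup_induction _
      (motive := fun y => (fun ψ z => β (x ψ z) (y ψ z)) ∈ GE κ M₃ (d + d')) hP' ?_ ?_ ?_
    · intro k' y hy
      have h1 := hg_mul β (d + 2 * k) (d' + 2 * k') x y hx hy
      have h2 : d + 2 * k + (d' + 2 * k') = d + d' + 2 * (k + k') := by ring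
      rw [h2] at h1
      unfold GE
      exact Submodule.mem_iSup_of_mem (k + k') h1
    · exact bil_zero_right β x _
    · intro y y' hy hy'
      exact bil_add_right β x y y' _ hy hy'
  · exact bil_zero_left β P' _
  · intro x y hx hy
    exact bil_add_left β x y P' _ hx hy

end

theorem gpr : GprStmt := by
  intro κ _ M₁ M₂ M₃ _ _ _ _ _ _ β d d' P P'
  exact ⟨hg_mul β d d' P P', ge_mul β d d' P P'⟩

end Pool.Agent.BEF.H5
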